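import Pool.Agent.W_c2305b_h35.Tiling

/-!
# Marks: turning of the boundary of a tile past a fixed direction

The boundary of a tile turns past a given direction at most once, and a part of it which turns
past none of `2 M` equidistributed directions (in coordinates stretched by `L`) has all its edge
vectors in one sector of angle `π / M`.
-/

namespace C2305b.TL

open Set Module Real

/-- Plücker relation. -/
lemma plucker (u y e e' : V) :
    cr u y * cr e e' = cr u e' * cr e y - cr u e * cr e' y := by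
  unfold cr; ring

namespace Tiling

variable {ι : Type*} (T : Tiling ι)

lemma left' {i : ι} {v w : V} (h : T.E i v w) {x : V} (hx : x ∈ T.P i) :
    0 ≤ cr (w - v) (x - w) := by
  have h1 := h.2.2.2.1 x hx
  have h2 : cr (w - v) (x - v) = cr (w - v) (x - w) := by
    have : x - v = (x - w) + (w - v) := by abel
    rw [this, cr_add_right, cr_self, add_zero]
  rw [← h2]; exact h1

/-- Consecutive edges turn to the left, strictly or not at all. -/
lemma turn_nonneg {i : ι} {v w w' : V} (h : T.E i v w) (h' : T.E i w w') :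
    0 ≤ cr (w - v) (w' - w) := T.left' h h'.2.1.2

/-- If consecutive edges are parallel then they have the same direction. -/
lemma turn_dir {i : ι} {v w w' : V} (h : T.E i v w) (h' : T.E i w w')
    (h0 : cr (w - v) (w' - w) = 0) : ∃ t : ℝ, 0 < t ∧ w' - w = t • (w - v) := by
  obtain ⟨t, ht⟩ := exists_smul_of_cr_eq_zero (sub_ne_zero.mpr h.2.2.1) h0
  refine ⟨t, ?_, ht⟩
  obtain ⟨o, ho⟩ := T.nonem i
  have h1 := cr_pos_of_mem_interior (v := w) (sub_ne_zero.mpr h.2.2.1)
    (fun x hx => T.left' h hx) ho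
  have h2 := cr_pos_of_mem_interior (sub_ne_zero.mpr h'.2.2.1) h'.2.2.2.1 ho
  rw [ht, cr_smul_left] at h2
  exact pos_of_mul_pos_left h2 h1.le

/-- At a mark for `u` the boundary turns strictly. -/
lemma turn_pos_of_mark {i : ι} {v w w' : V} (h : T.E i v w) (h' : T.E i w w') {u : V}
    (h1 : cr u (w - v) < 0) (h2 : 0 ≤ cr u (w' - w)) : 0 < cr (w - v) (w' - w) := by
  rcases (T.turn_nonneg h h').lt_or_eq with h0 | h0
  · exact h0
  · exfalso
    obtain ⟨t, ht, e⟩ := T.turn_dir h h' h0.symm
    rw [e, cr_smul_right] at h2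
    have := mul_neg_of_pos_of_neg ht h1
    linarith

/-- At a mark for `u` the functional `cr u` is minimal on the tile. -/
lemma min_of_mark {i : ι} {v w w' : V} (h : T.E i v w) (h' : T.E i w w') {u : V}
    (h1 : cr u (w - v) < 0) (h2 : 0 ≤ cr u (w' - w)) {x : V} (hx : x ∈ T.P i) :
    0 ≤ cr u (x - w) := by
  have h3 := T.turn_pos_of_mark h h' h1 h2
  have h4 := plucker u (x - w) (w - v) (w' - w)
  have h5 := T.left' h hx
  have h6 := h'.2.2.2.1 x hx
  have h7 : 0 ≤ cr u (x - w) * cr (w - v) (w' - w) := by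
    rw [h4]
    have := mul_nonneg h2 h5
    have := mul_nonneg (neg_nonneg.mpr h1.le) h6
    linarith
  exact nonneg_of_mul_nonneg_left h7 h3

/-- Two marks for the same direction are at the same vertex. -/
theorem mark_eq {i : ι} {v w w' a b b' : V} (h : T.E i v w) (h' : T.E i w w')
    (g : T.E i a b) (g' : T.E i b b') {u : V}
    (h1 : cr u (w - v) < 0) (h2 : 0 ≤ cr u (w' - w))
    (g1 : cr u (b - a) < 0) (g2 : 0 ≤ cr u (b' - b)) : w = b := by
  by_contra hne
  have m1 := T.min_of_mark h h' h1 h2 g'.1.2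
  have m2 := T.min_of_mark g g' g1 g2 h'.1.2
  have m3 : cr u (b - w) = 0 := by
    apply le_antisymm _ m1
    have : cr u (b - w) = -cr u (w - b) := by rw [← cr_neg_right, neg_sub]
    rw [this]; linarith
  have m3' : cr u (w - b) = 0 := by
    have : cr u (w - b) = -cr u (b - w) := by rw [← cr_neg_right, neg_sub]
    rw [this, m3, neg_zero]
  have hy : b - w ≠ 0 := sub_ne_zero.mpr (Ne.symm hne)
  have hy' : w - b ≠ 0 := sub_ne_zero.mpr hne
  -- both next edges are parallel to w b, and directed towards the other vertex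
  have key : ∀ {v w w' b : V}, T.E i v w → T.E i w w' → cr u (w - v) < 0 → 0 ≤ cr u (w' - w) →
      b ∈ T.P i → b - w ≠ 0 → cr u (b - w) = 0 → ∃ t : ℝ, 0 < t ∧ b - w = t • (w' - w) := by
    intro v w w' b h h' h1 h2 hb hbw h0
    have e1 := plucker u (b - w) (w - v) (w' - w)
    rw [h0, zero_mul] at e1
    have e2 := T.left' h hb
    have e3 := h'.2.2.2.1 b hb
    have e4 : cr (w' - w) (b - w) = 0 := by
      have := mul_nonneg h2 e2
      have h5 : (-cr u (w - v)) * cr (w' - w) (b - w) ≤ 0 := by linarith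
      apply le_antisymm _ e3
      by_contra hc
      push Not at hc
      have := mul_pos (neg_pos.mpr h1) hc
      linarith
    obtain ⟨t, ht⟩ := exists_smul_of_cr_eq_zero (sub_ne_zero.mpr h'.2.2.1) e4
    refine ⟨t, ?_, ht⟩
    have e5 := T.turn_pos_of_mark h h' h1 h2
    rw [ht, cr_smul_right] at e2
    have e6 : 0 ≤ t := nonneg_of_mul_nonneg_left e2 e5
    rcases e6.lt_or_eq with h6 | h6
    · exact h6
    · exfalso; apply hbw; rw [ht, ← h6, zero_smul]
  obtain ⟨t, ht, et⟩ := key h h' h1 h2 g'.1.2 hy m3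
  obtain ⟨s, hs, es⟩ := key g g' g1 g2 h'.1.2 hy' m3'
  -- interior point on both sides
  obtain ⟨o, ho⟩ := T.nonem i
  have f1 := cr_pos_of_mem_interior (sub_ne_zero.mpr h'.2.2.1) h'.2.2.2.1 ho
  have f2 := cr_pos_of_mem_interior (sub_ne_zero.mpr g'.2.2.1) g'.2.2.2.1 ho
  have k1 : 0 < cr (b - w) (o - w) := by rw [et, cr_smul_left]; exact mul_pos ht f1
  have k2 : 0 < cr (w - b) (o - b) := by rw [es, cr_smul_left]; exact mul_pos hs f2
  have k3 : cr (w - b) (o - b) = -cr (b - w) (o - w) := by simp [cr]; ring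
  linarith

/-- **[D], first half.** The boundary of a tile passes a direction at most once. -/
theorem mark_unique {i : ι} {b : ℕ} {q : ℕ → V} (hE : ∀ k, T.E i (q k) (q (k + 1)))
    (hper : ∀ k, q (k + b) = q k) (hinj : ∀ k < b, ∀ k' < b, q k = q k' → k = k') (u : V)
    {k k' : ℕ} (hk : k < b) (hk' : k' < b)
    (h1 : cr u (q (k + 1) - q k) < 0) (h2 : 0 ≤ cr u (q (k + 1 + 1) - q (k + 1)))
    (h1' : cr u (q (k' + 1) - q k') < 0) (h2' : 0 ≤ cr u (q (k' + 1 + 1) - q (k' + 1))) :
    k = k' := by
  have h := T.mark_eq (hE k) (hE (k + 1)) (hE k') (hE (k' + 1)) h1 h2 h1' h2'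
  -- reduce `k + 1`, `k' + 1` modulo `b`
  have h0 : q b = q 0 := by have := hper 0; rwa [zero_add] at this
  rcases Nat.lt_or_ge (k + 1) b with c | c <;> rcases Nat.lt_or_ge (k' + 1) b with c' | c'
  · have := hinj _ c _ c' h; omega
  · have e : k' + 1 = b := by omega
    rw [e, h0] at h
    have := hinj _ c 0 (by omega) h; omega
  · have e : k + 1 = b := by omega
    rw [e, h0] at h
    have := hinj 0 (by omega) _ c' h; omega
  · omega

/-- The marks of a tile for a direction, counted. -/
theorem marks_card {i : ι} {b : ℕ} {q : ℕ → V} (hE : ∀ k, T.E i (q k) (q (k + 1)))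
    (hper : ∀ k, q (k + b) = q k) (hinj : ∀ k < b, ∀ k' < b, q k = q k' → k = k') (u : V) :
    {k | k < b ∧ cr u (q (k + 1) - q k) < 0 ∧
      0 ≤ cr u (q (k + 1 + 1) - q (k + 1))}.ncard ≤ 1 := by
  rw [Set.ncard_le_one_iff ((Set.finite_lt_nat b).subset fun k hk => hk.1)]
  rintro k k' ⟨hk, h1, h2⟩ ⟨hk', h1', h2'⟩
  exact T.mark_unique hE hper hinj u hk hk' h1 h2 h1' h2'

end Tiling

/-! ### Sectors -/

/-- The vector of angle `a` in the coordinates stretched by `L`. -/
noncomputable def ray (L a : ℝ) : V := !₂[Real.cos a, L * Real.sin a]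

lemma ray_zero (L a : ℝ) : ray L a 0 = Real.cos a := by simp [ray]
lemma ray_one (L a : ℝ) : ray L a 1 = L * Real.sin a := by simp [ray]

/-- The scalar product in the coordinates stretched by `L`. -/
noncomputable def sp (L : ℝ) (e f : V) : ℝ := e 0 * f 0 + e 1 * f 1 / L ^ 2

lemma cr_ray (L a b : ℝ) : cr (ray L a) (ray L b) = L * Real.sin (b - a) := by
  unfold cr
  rw [ray_zero, ray_one, ray_zero, ray_one, Real.sin_sub]
  ring

lemma sp_ray {L : ℝ} (hL : L ≠ 0) (a b : ℝ) : sp L (ray L a) (ray L b) = Real.cos (b - a) := by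
  unfold sp
  rw [ray_zero, ray_one, ray_zero, ray_one, Real.cos_sub]
  field_simp

lemma ray_add_pi (L a : ℝ) : ray L (a + π) = -ray L a := by
  ext i
  fin_cases i
  · simp [ray]
  · simp [ray]

lemma ray_add_two_pi (L a : ℝ) : ray L (a + 2 * π) = ray L a := by
  ext i
  fin_cases i
  · simp [ray]
  · simp [ray]

/-- Some sector contains a given vector. -/
lemma exists_sector {L : ℝ} (hL : 0 < L) {M : ℕ} (hM : 2 ≤ M) {e : V} (he : e ≠ 0) :
    ∃ j < 2 * M, 0 ≤ cr (ray L (j * (π / M))) e ∧ cr (ray L ((j + 1 : ℕ) * (π / M))) e < 0 := by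
  by_contra hcon
  push Not at hcon
  have hM0 : (0 : ℝ) < M := by exact_mod_cast (by omega : 0 < M)
  -- nonnegative at one place, hence everywhere after it
  have hper : ∀ j : ℕ, ray L ((j + 2 * M : ℕ) * (π / M)) = ray L (j * (π / M)) := by
    intro j
    have : ((j + 2 * M : ℕ) : ℝ) * (π / M) = j * (π / M) + 2 * π := by
      push_cast; field_simp
    rw [this, ray_add_two_pi]
  have hneg : ∀ j : ℕ, ray L ((j + M : ℕ) * (π / M)) = -ray L (j * (π / M)) := by
    intro j
    have : ((j + M : ℕ) : ℝ) * (π / M) = j * (π / M) + π := by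
      push_cast; field_simp
    rw [this, ray_add_pi]
  have hstep : ∀ j : ℕ, 0 ≤ cr (ray L (j * (π / M))) e →
      0 ≤ cr (ray L ((j + 1 : ℕ) * (π / M))) e := by
    intro j hj
    -- reduce modulo `2 M`
    have hred : ∀ j : ℕ, ray L ((j % (2 * M) : ℕ) * (π / M)) = ray L (j * (π / M)) := by
      intro j
      have h1 : ∀ n r : ℕ, ray L ((r + n * (2 * M) : ℕ) * (π / M)) = ray L (r * (π / M)) := by
        intro n r
        induction n with
        | zero => simp
        | succ n ih =>
          have : r + (n + 1) * (2 * M) = (r + n * (2 * M)) + 2 * M := by ring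
          rw [this, hper, ih]
      have h2 := h1 (j / (2 * M)) (j % (2 * M))
      rw [show j % (2 * M) + j / (2 * M) * (2 * M) = j by
        rw [Nat.mul_comm (j / (2 * M)) (2 * M)]; exact Nat.mod_add_div j (2 * M)] at h2
      exact h2.symm
    have h3 := hcon (j % (2 * M)) (Nat.mod_lt _ (by omega)) (by rw [hred]; exact hj)
    have h4 : ray L ((j % (2 * M) + 1 : ℕ) * (π / M)) = ray L ((j + 1 : ℕ) * (π / M)) := by
      have e1 : ((j % (2 * M) + 1 : ℕ) : ℝ) * (π / M) = (j % (2 * M) : ℕ) * (π / M) + π / M := by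
        push_cast; ring
      have e2 : ((j + 1 : ℕ) : ℝ) * (π / M) = j * (π / M) + π / M := by push_cast; ring
      have e3 := hred j
      have c0 : Real.cos ((j % (2 * M) : ℕ) * (π / M)) = Real.cos (j * (π / M)) := by
        have := congrArg (fun v : V => v 0) e3
        simpa [ray_zero] using this
      have s0 : Real.sin ((j % (2 * M) : ℕ) * (π / M)) = Real.sin (j * (π / M)) := by
        have := congrArg (fun v : V => v 1) e3
        simp only [ray_one] at this
        exact mul_left_cancel₀ hL.ne' this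
      rw [e1, e2]
      ext i
      fin_cases i
      · simp only [Fin.zero_eta, ray_zero, Real.cos_add, c0, s0]
      · simp only [Fin.mk_one, ray_one, Real.sin_add, c0, s0]
    rwa [h4] at h3
  have hall : ∀ n j : ℕ, 0 ≤ cr (ray L (j * (π / M))) e →
      0 ≤ cr (ray L ((j + n : ℕ) * (π / M))) e := by
    intro n
    induction n with
    | zero => intro j hj; simpa using hj
    | succ n ih =>
      intro j hj
      have := hstep _ (ih j hj)
      rwa [show j + n + 1 = j + (n + 1) by ring] at this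
  have hzero : ∀ j : ℕ, cr (ray L (j * (π / M))) e = 0 := by
    intro j
    rcases le_total 0 (cr (ray L (j * (π / M))) e) with h | h
    · have h1 := hall M j h
      rw [hneg, cr_neg_left] at h1
      linarith
    · have h1 : 0 ≤ cr (ray L ((j + M : ℕ) * (π / M))) e := by
        rw [hneg, cr_neg_left]; linarith
      have h2 := hall M (j + M) h1
      rw [hneg (j + M), hneg j, neg_neg] at h2
      linarith
  have h0 := hzero 0
  have h1 := hzero 1
  -- two independent rays
  have hpos : 0 < cr (ray L ((0 : ℕ) * (π / M))) (ray L ((1 : ℕ) * (π / M))) := by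
    rw [cr_ray]
    apply mul_pos hL
    apply Real.sin_pos_of_pos_of_lt_pi
    · simp only [Nat.cast_zero, Nat.cast_one, zero_mul, one_mul, sub_zero]; positivity
    · simp only [Nat.cast_zero, Nat.cast_one, zero_mul, one_mul, sub_zero]
      rw [div_lt_iff₀ hM0]
      have : (2 : ℝ) ≤ M := by exact_mod_cast hM
      nlinarith [Real.pi_pos]
  apply he
  set a := ray L ((0 : ℕ) * (π / M)) with ha
  set b := ray L ((1 : ℕ) * (π / M)) with hb
  have ha0 : a ≠ 0 := by intro h; rw [h, cr_zero_left] at hpos; exact lt_irrefl _ hpos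
  obtain ⟨t, ht⟩ := exists_smul_of_cr_eq_zero ha0 h0
  rw [ht, cr_smul_right, cr_swap a b] at h1
  have : t = 0 := by
    rcases mul_eq_zero.mp h1 with h | h
    · exact h
    · linarith
  rw [ht, this, zero_smul]

/-- Two vectors in the sector spanned by `u` and `v`. -/
lemma sector_bound {L d : ℝ} (hL : 0 < L) (hd : 0 < d) (hd2 : d < π / 2) {a : ℝ} {e f : V}
    (he1 : 0 ≤ cr (ray L a) e) (he2 : cr (ray L (a + d)) e < 0)
    (hf1 : 0 ≤ cr (ray L a) f) (hf2 : cr (ray L (a + d)) f < 0) :
    0 < sp L e f ∧ |cr e f| ≤ L * Real.tan d * sp L e f := by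
  set u := ray L a with hu
  set v := ray L (a + d) with hv
  have hs : 0 < Real.sin d := Real.sin_pos_of_pos_of_lt_pi hd (by linarith [Real.pi_pos])
  have hc : 0 < Real.cos d := Real.cos_pos_of_mem_Ioo ⟨by linarith, hd2⟩
  have huv : cr u v = L * Real.sin d := by
    rw [hu, hv, cr_ray]; congr 2; ring
  have huv0 : 0 < cr u v := by rw [huv]; positivity
  have hsp1 : sp L u u = 1 := by rw [hu, sp_ray hL.ne']; simp
  have hsp2 : sp L v v = 1 := by rw [hv, sp_ray hL.ne']; simp
  have hsp3 : sp L u v = Real.cos d := by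
    rw [hu, hv, sp_ray hL.ne']; congr 1; ring
  have coords : ∀ g : V, 0 ≤ cr u g → cr v g < 0 →
      ∃ α β : ℝ, 0 < α ∧ 0 ≤ β ∧ g = α • u + β • v := by
    intro g h1 h2
    refine ⟨cr g v / cr u v, cr u g / cr u v, ?_, div_nonneg h1 huv0.le, ?_⟩
    · apply div_pos _ huv0
      rw [cr_swap]; linarith
    · have hb' : u 0 * v 1 - u 1 * v 0 ≠ 0 := huv0.ne'
      ext i
      fin_cases i
      · simp only [Fin.zero_eta, PiLp.add_apply, PiLp.smul_apply, smul_eq_mul, cr]
        rw [div_mul_eq_mul_div, div_mul_eq_mul_div, ← add_div, eq_div_iff hb']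
        ring
      · simp only [Fin.mk_one, PiLp.add_apply, PiLp.smul_apply, smul_eq_mul, cr]
        rw [div_mul_eq_mul_div, div_mul_eq_mul_div, ← add_div, eq_div_iff hb']
        ring
  obtain ⟨α, β, hα, hβ, he⟩ := coords e he1 he2
  obtain ⟨α', β', hα', hβ', hf⟩ := coords f hf1 hf2
  have hcr : cr e f = (α * β' - β * α') * (L * Real.sin d) := by
    rw [he, hf]
    have : cr (α • u + β • v) (α' • u + β' • v) = (α * β' - β * α') * cr u v := by
      simp [cr]; ring
    rw [this, huv]
  have hspf : sp L e f = α * α' + β * β' + (α * β' + β * α') * Real.cos d := by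
    have : sp L e f = α * α' * sp L u u + β * β' * sp L v v +
        (α * β' + β * α') * sp L u v := by
      rw [he, hf]
      simp only [sp, PiLp.add_apply, PiLp.smul_apply, smul_eq_mul]
      ring
    rw [this, hsp1, hsp2, hsp3]; ring
  have p1 : 0 < α * α' := mul_pos hα hα'
  have p2 : 0 ≤ β * β' := mul_nonneg hβ hβ'
  have p3 : 0 ≤ α * β' := mul_nonneg hα.le hβ'
  have p4 : 0 ≤ β * α' := mul_nonneg hβ hα'.le
  constructor
  · rw [hspf]
    have := mul_nonneg (add_nonneg p3 p4) hc.le
    linarith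
  · rw [hcr, hspf, abs_mul, abs_of_pos (mul_pos hL hs), Real.tan_eq_sin_div_cos]
    have e1 : L * (Real.sin d / Real.cos d) *
        (α * α' + β * β' + (α * β' + β * α') * Real.cos d) =
        (L * Real.sin d) * ((α * α' + β * β') / Real.cos d + (α * β' + β * α')) := by
      field_simp
    rw [e1, mul_comm]
    apply mul_le_mul_of_nonneg_left _ (mul_pos hL hs).le
    have e2 : 0 ≤ (α * α' + β * β') / Real.cos d := by positivity
    have e3 : |α * β' - β * α'| ≤ α * β' + β * α' := by
      rw [abs_le]; constructor <;> linarith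
    linarith

/-- **[D], second half.** A sequence of vectors turning to the left and passing none of the
`2 M` rays stays in one sector. -/
theorem sector_of_no_mark {L : ℝ} (hL : 0 < L) {M : ℕ} (hM : 3 ≤ M) {W : ℕ} {e : ℕ → V}
    (hne : ∀ k < W, e k ≠ 0) (hcr : ∀ k, k + 1 < W → 0 ≤ cr (e k) (e (k + 1)))
    (hmark : ∀ k, k + 1 < W → ∀ j < 2 * M,
      ¬ (cr (ray L (j * (π / M))) (e k) < 0 ∧ 0 ≤ cr (ray L (j * (π / M))) (e (k + 1))))
    {k k' : ℕ} (hk : k < W) (hk' : k' < W) :
    0 < sp L (e k) (e k') ∧ |cr (e k) (e k')| ≤ L * Real.tan (π / M) * sp L (e k) (e k') := by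
  have hM0 : (0 : ℝ) < M := by exact_mod_cast (by omega : 0 < M)
  have hM3 : (3 : ℝ) ≤ M := by exact_mod_cast hM
  obtain ⟨j, hj, hj1, hj2⟩ := exists_sector hL (by omega : 2 ≤ M) (hne 0 (by omega))
  have hd : 0 < π / M := by positivity
  have hd2 : π / M < π / 2 := by
    apply div_lt_div_of_pos_left Real.pi_pos (by norm_num) (by linarith)
  set a : ℝ := j * (π / M) with ha
  have hjd : ((j + 1 : ℕ) : ℝ) * (π / M) = a + π / M := by rw [ha]; push_cast; ring
  rw [hjd] at hj2
  -- the ray `j + 1` is one of the rays `< 2 M`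
  have hray : ∃ j' < 2 * M, ray L (j' * (π / M)) = ray L (a + π / M) := by
    rcases Nat.lt_or_ge (j + 1) (2 * M) with h | h
    · exact ⟨j + 1, h, by rw [hjd]⟩
    · refine ⟨0, by omega, ?_⟩
      have hj' : j + 1 = 2 * M := by omega
      rw [← hjd, hj']
      have : ((2 * M : ℕ) : ℝ) * (π / M) = ((0 : ℕ) : ℝ) * (π / M) + 2 * π := by
        push_cast; field_simp; ring
      rw [this, ray_add_two_pi]
  obtain ⟨j', hj', hje⟩ := hray
  have huv : 0 < cr (ray L a) (ray L (a + π / M)) := by
    rw [cr_ray]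
    apply mul_pos hL
    rw [show a + π / M - a = π / M by ring]
    exact Real.sin_pos_of_pos_of_lt_pi hd (by linarith [Real.pi_pos])
  have hind : ∀ k, k < W → 0 ≤ cr (ray L a) (e k) ∧ cr (ray L (a + π / M)) (e k) < 0 := by
    intro k
    induction k with
    | zero => intro _; exact ⟨hj1, hj2⟩
    | succ k ih =>
      intro hk
      obtain ⟨i1, i2⟩ := ih (by omega)
      have h1 := hcr k hk
      have h2 := hmark k hk j' hj'
      rw [hje] at h2
      have h3 : cr (ray L (a + π / M)) (e (k + 1)) < 0 := by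
        by_contra hc
        push Not at hc
        exact h2 ⟨i2, hc⟩
      refine ⟨?_, h3⟩
      -- Ptolemy
      have h4 : cr (ray L a) (e (k + 1)) * cr (e k) (ray L (a + π / M)) =
          cr (ray L a) (e k) * cr (e (k + 1)) (ray L (a + π / M)) +
          cr (e k) (e (k + 1)) * cr (ray L a) (ray L (a + π / M)) := by
        unfold cr; ring
      have h5 : 0 < cr (e k) (ray L (a + π / M)) := by rw [cr_swap]; linarith
      have h6 : 0 < cr (e (k + 1)) (ray L (a + π / M)) := by rw [cr_swap]; linarith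
      have h7 : 0 ≤ cr (ray L a) (e (k + 1)) * cr (e k) (ray L (a + π / M)) := by
        rw [h4]
        have := mul_nonneg i1 h6.le
        have := mul_nonneg h1 huv.le
        linarith
      exact nonneg_of_mul_nonneg_left h7 h5
  obtain ⟨a1, a2⟩ := hind k hk
  obtain ⟨b1, b2⟩ := hind k' hk'
  exact sector_bound hL hd hd2 a1 a2 b1 b2

end C2305b.TL
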