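import Pool.Agent.W_c2305b_h35.Tiling

/-!
# Two chords of a plane convex set

The parts of a convex set beyond two different chords with ends on the boundary, each of them
in the other one's left half-plane, do not meet.
-/

namespace C2305b.TL

open Set Module

/-- Coordinates with respect to two vectors. -/
lemma two_coords {e b : V} (h : cr e b ≠ 0) (y : V) :
    y = (cr y b / cr e b) • e + (cr e y / cr e b) • b := by
  have hb' : e 0 * b 1 - e 1 * b 0 ≠ 0 := h
  ext i
  fin_cases i
  · simp only [Fin.zero_eta, PiLp.add_apply, PiLp.smul_apply, smul_eq_mul, cr]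
    rw [div_mul_eq_mul_div, div_mul_eq_mul_div, ← add_div, eq_div_iff hb']
    ring
  · simp only [Fin.mk_one, PiLp.add_apply, PiLp.smul_apply, smul_eq_mul, cr]
    rw [div_mul_eq_mul_div, div_mul_eq_mul_div, ← add_div, eq_div_iff hb']
    ring

lemma cr_height (a b : V) (l m : ℝ) :
    cr (b - a) ((l • a + m • b) - a) = (1 - l - m) * cr a b := by
  simp [cr]; ring

lemma cr_height' (a b : V) (s t : ℝ) :
    s * cr (t • b - s • a) (a - s • a) = (s - 1) * (s * t * cr a b) := by
  simp [cr]; ring

lemma cr_height'' (a b : V) (s t : ℝ) :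
    t * cr (t • b - s • a) (b - s • a) = (t - 1) * (s * t * cr a b) := by
  simp [cr]; ring

lemma continuous_cr_left (u v : V) : Continuous fun x : V => cr u (x - v) := by
  have : (fun x : V => cr u (x - v)) = fun x => crL u x - cr u v := by
    ext x; rw [cr_sub_right, crL_apply]
  rw [this]
  exact (crL u).continuous.sub continuous_const

lemma continuous_cr_right (u v : V) : Continuous fun x : V => cr (x - v) u := by
  have : (fun x : V => cr (x - v) u) = fun x => -(cr u (x - v)) := by
    ext x; rw [cr_swap]
  rw [this]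
  exact (continuous_cr_left u v).neg

/-- A point of an open chord with points of the convex set strictly on both sides is interior. -/
lemma mem_interior_of_chord {D : Set V} (hD : Convex ℝ D) {x u w z p : V} (hu : u ∈ D)
    (hw : w ∈ D) (hz : z ∈ D) (hp : p ∈ D) (hx : x ∈ openSegment ℝ u w)
    (h1 : cr (w - u) (z - u) < 0) (h2 : 0 < cr (w - u) (p - u)) : x ∈ interior D := by
  rw [openSegment_eq_image'] at hx
  obtain ⟨θ, ⟨hθ0, hθ1⟩, hxθ⟩ := hx
  simp only at hxθ
  set e := w - u with he
  set a := p - u with ha
  set c := z - u with hc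
  -- coordinates with respect to e, a and e, c
  let β : V → ℝ := fun y => cr e (y - x) / cr e a
  let α : V → ℝ := fun y => cr (y - x) a / cr e a
  let β' : V → ℝ := fun y => cr e (y - x) / cr e c
  let α' : V → ℝ := fun y => cr (y - x) c / cr e c
  have hca : cr e a ≠ 0 := h2.ne'
  have hcc : cr e c ≠ 0 := h1.ne
  have hβ : Continuous β := (continuous_cr_left e x).div_const _
  have hβ' : Continuous β' := (continuous_cr_left e x).div_const _
  have hα : Continuous α := (continuous_cr_right a x).div_const _
  have hα' : Continuous α' := (continuous_cr_right c x).div_const _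
  have zβ : β x = 0 := by simp [β, cr_zero_right]
  have zβ' : β' x = 0 := by simp [β', cr_zero_right]
  have zα : α x = 0 := by simp [α, cr_zero_left]
  have zα' : α' x = 0 := by simp [α', cr_zero_left]
  have key : ∀ (b : V), cr e b ≠ 0 → ∀ y : V,
      y - x = (cr (y - x) b / cr e b) • e + (cr e (y - x) / cr e b) • b := by
    intro b hb y
    exact two_coords hb (y - x)
  -- three point combinations
  have hcomb : ∀ (b r : V), r ∈ D → b = r - u → ∀ s t : ℝ, 0 ≤ t → 0 ≤ θ + s →
      0 ≤ 1 - θ - s - t → x + s • e + t • b ∈ D := by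
    intro b r hr hb s t ht hs hst
    have h3 := hD.sum_mem (t := (Finset.univ : Finset (Fin 3)))
      (w := ![1 - θ - s - t, θ + s, t]) (z := ![u, w, r]) (by
        intro i _
        fin_cases i
        · simpa using hst
        · simpa using hs
        · simpa using ht) (by simp [Fin.sum_univ_three]; ring) (by
        intro i _
        fin_cases i
        · simpa using hu
        · simpa using hw
        · simpa using hr)
    simp only [Fin.sum_univ_three, Matrix.cons_val_zero, Matrix.cons_val_one,
      Matrix.cons_val_two, Matrix.head_cons, Matrix.tail_cons] at h3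
    convert h3 using 1
    rw [← hxθ, hb, he]
    module
  let U : Set V := {y | 0 < 1 - θ - α y - β y} ∩ {y | 0 < θ + α y} ∩
    ({y | 0 < 1 - θ - α' y - β' y} ∩ {y | 0 < θ + α' y})
  rw [mem_interior]
  refine ⟨U, ?_, ?_, ?_⟩
  · rintro y ⟨⟨hy1, hy2⟩, hy3, hy4⟩
    simp only [mem_ofPred_eq] at hy1 hy2 hy3 hy4
    rcases le_total 0 (cr e (y - x)) with h | h
    · have h4 := hcomb a p hp rfl (α y) (β y) (div_nonneg h h2.le) hy2.le hy1.le
      have h5 : y = x + α y • e + β y • a := by
        have := key a hca y
        rw [add_assoc, ← this]; abel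
      rw [h5]; exact h4
    · have h4 := hcomb c z hz rfl (α' y) (β' y) (div_nonneg_of_nonpos h h1.le) hy4.le hy3.le
      have h5 : y = x + α' y • e + β' y • c := by
        have := key c hcc y
        rw [add_assoc, ← this]; abel
      rw [h5]; exact h4
  · refine ((isOpen_lt continuous_const ?_).inter (isOpen_lt continuous_const ?_)).inter
      ((isOpen_lt continuous_const ?_).inter (isOpen_lt continuous_const ?_))
    · exact (continuous_const.sub hα).sub hβ
    · exact continuous_const.add hα
    · exact (continuous_const.sub hα').sub hβ'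
    · exact continuous_const.add hα'
  · refine ⟨⟨?_, ?_⟩, ?_, ?_⟩ <;> simp only [mem_ofPred_eq, zα, zβ, zα', zβ'] <;> linarith

/-- Seen from a point `z` beyond the chord `A B`, the points of the convex set on the other side
of the chord are in the angle `A z B`. -/
lemma chord_cone {D : Set V} (hD : Convex ℝ D) {A B z p C : V} (hA : A ∈ D) (hB : B ∈ D)
    (hAi : A ∉ interior D) (hBi : B ∉ interior D) (hz : z ∈ D) (hp : p ∈ D) (hC : C ∈ D)
    (h1 : cr (B - A) (z - A) < 0) (h2 : 0 < cr (B - A) (p - A)) (h3 : 0 ≤ cr (B - A) (C - A)) :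
    cr (A - z) (C - z) ≤ 0 ∧ cr (C - z) (B - z) ≤ 0 := by
  have hAB : cr (A - z) (B - z) < 0 := by
    have : cr (A - z) (B - z) = cr (B - A) (z - A) := by simp [cr]; ring
    rw [this]; exact h1
  have hδ : cr (A - z) (B - z) ≠ 0 := hAB.ne
  -- coordinates of C with respect to A - z, B - z
  obtain ⟨l, m, hC'⟩ : ∃ l m : ℝ, C - z = l • (A - z) + m • (B - z) := by
    exact ⟨_, _, two_coords hδ (C - z)⟩
  have hl : cr (C - z) (B - z) = l * cr (A - z) (B - z) := by
    rw [hC', cr_add_left, cr_smul_left, cr_smul_left, cr_self]; ring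
  have hm : cr (A - z) (C - z) = m * cr (A - z) (B - z) := by
    rw [hC', cr_add_right, cr_smul_right, cr_smul_right, cr_self]; ring
  have hlm : 1 ≤ l + m := by
    have e1 : cr (B - A) (C - A) = (1 - l - m) * cr (A - z) (B - z) := by
      have e1 : C - A = (C - z) - (A - z) := by abel
      have e2 : B - A = (B - z) - (A - z) := by abel
      rw [e1, hC', e2, cr_height]
    rw [e1] at h3
    by_contra hcon
    push Not at hcon
    have : (1 - l - m) * cr (A - z) (B - z) < 0 := mul_neg_of_pos_of_neg (by linarith) hAB
    linarith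
  -- the point q on the line A B
  have hs : 0 < l + m := by linarith
  have hq : z + (1 / (l + m)) • (C - z) ∈ D := by
    have h5 := hD hz hC (a := 1 - 1 / (l + m)) (b := 1 / (l + m))
      (by rw [sub_nonneg, div_le_one hs]; exact hlm) (by positivity) (by ring)
    convert h5 using 1
    module
  have hq' : z + (1 / (l + m)) • (C - z) = (l / (l + m)) • A + (m / (l + m)) • B := by
    rw [hC']
    have e2 : z = (l / (l + m)) • z + (m / (l + m)) • z := by
      rw [← add_smul, ← add_div, div_self hs.ne', one_smul]
    nth_rewrite 1 [e2]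
    rw [div_eq_mul_one_div l, div_eq_mul_one_div m]
    module
  set q := z + (1 / (l + m)) • (C - z) with hqdef
  have hlm1 : l / (l + m) + m / (l + m) = 1 := by rw [← add_div, div_self hs.ne']
  constructor
  · rw [hm]
    by_contra hcon
    push Not at hcon
    have hm0 : m < 0 := by
      by_contra h0
      push Not at h0
      have := mul_nonpos_of_nonneg_of_nonpos h0 hAB.le
      linarith
    -- A is in the open segment from q to B
    apply hAi
    have hl0 : 0 < l := by linarith
    have hd : 0 < l / (l + m) := div_pos hl0 hs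
    have hseg : A ∈ openSegment ℝ q B := by
      refine ⟨(l + m) / l, -m / l, by positivity, div_pos (by linarith) hl0, by field_simp; ring, ?_⟩
      rw [hq', smul_add, smul_smul, smul_smul, add_assoc, ← add_smul]
      have e3 : (l + m) / l * (l / (l + m)) = 1 := by field_simp
      have e4 : (l + m) / l * (m / (l + m)) + -m / l = 0 := by field_simp; ring
      rw [e3, e4, one_smul, zero_smul, add_zero]
    have hAq : B - q = (l / (l + m)) • (B - A) := by
      rw [hq']
      have e5 : B = (l / (l + m)) • B + (m / (l + m)) • B := by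
        rw [← add_smul, hlm1, one_smul]
      nth_rewrite 1 [e5]
      module
    have hmem : ∀ y : V, cr (B - q) (y - q) = (l / (l + m)) * cr (B - A) (y - A) := by
      intro y
      rw [hAq, cr_smul_left]
      congr 1
      have e6 : y - q = (y - A) - (m / (l + m)) • (B - A) := by
        rw [hq']
        have e7 : A = (l / (l + m)) • A + (m / (l + m)) • A := by
          rw [← add_smul, hlm1, one_smul]
        nth_rewrite 2 [e7]
        module
      rw [e6, cr_sub_right, cr_smul_right, cr_self]; ring
    refine mem_interior_of_chord hD (u := q) (w := B) (z := z) (p := p) hq hB hz hp hseg ?_ ?_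
    · rw [hmem]; exact mul_neg_of_pos_of_neg hd h1
    · rw [hmem]; exact mul_pos hd h2
  · rw [hl]
    by_contra hcon
    push Not at hcon
    have hl0 : l < 0 := by
      by_contra h0
      push Not at h0
      have := mul_nonpos_of_nonneg_of_nonpos h0 hAB.le
      linarith
    apply hBi
    have hm0 : 0 < m := by linarith
    have hd : 0 < m / (l + m) := div_pos hm0 hs
    have hseg : B ∈ openSegment ℝ A q := by
      refine ⟨-l / m, (l + m) / m, div_pos (by linarith) hm0, by positivity, by field_simp; ring, ?_⟩
      rw [hq', smul_add, smul_smul, smul_smul, ← add_assoc, ← add_smul]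
      have e3 : (l + m) / m * (m / (l + m)) = 1 := by field_simp
      have e4 : -l / m + (l + m) / m * (l / (l + m)) = 0 := by field_simp; ring
      rw [e3, e4, one_smul, zero_smul, zero_add]
    have hAq : q - A = (m / (l + m)) • (B - A) := by
      rw [hq']
      have e5 : A = (l / (l + m)) • A + (m / (l + m)) • A := by
        rw [← add_smul, hlm1, one_smul]
      nth_rewrite 2 [e5]
      module
    refine mem_interior_of_chord hD (u := A) (w := q) (z := z) (p := p) hA hq hz hp hseg ?_ ?_
    · rw [hAq, cr_smul_left]; exact mul_neg_of_pos_of_neg hd h1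
    · rw [hAq, cr_smul_left]; exact mul_pos hd h2

/-- **[6a]** The parts of a convex set beyond two different boundary chords do not meet. -/
theorem chords_disjoint {D : Set V} (hD : Convex ℝ D) {A B A' B' : V} (hA : A ∈ D) (hB : B ∈ D)
    (hA' : A' ∈ D) (hB' : B' ∈ D) (hAi : A ∉ interior D) (hBi : B ∉ interior D)
    (hAi' : A' ∉ interior D) (hBi' : B' ∉ interior D) (hne : ¬ (A = A' ∧ B = B'))
    (h1 : 0 ≤ cr (B - A) (A' - A)) (h2 : 0 ≤ cr (B - A) (B' - A))
    (h3 : 0 ≤ cr (B' - A') (A - A')) (h4 : 0 ≤ cr (B' - A') (B - A'))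
    (hp : ∃ p ∈ D, 0 < cr (B - A) (p - A)) (hp' : ∃ p ∈ D, 0 < cr (B' - A') (p - A')) :
    ∀ z ∈ D, ¬ (cr (B - A) (z - A) < 0 ∧ cr (B' - A') (z - A') < 0) := by
  rintro z hz ⟨hz1, hz2⟩
  obtain ⟨p, hp, hp1⟩ := hp
  obtain ⟨p', hp', hp1'⟩ := hp'
  obtain ⟨a1, a2⟩ := chord_cone hD hA hB hAi hBi hz hp hA' hz1 hp1 h1
  obtain ⟨a3, a4⟩ := chord_cone hD hA hB hAi hBi hz hp hB' hz1 hp1 h2
  obtain ⟨b1, b2⟩ := chord_cone hD hA' hB' hAi' hBi' hz hp' hA hz2 hp1' h3
  obtain ⟨b3, b4⟩ := chord_cone hD hA' hB' hAi' hBi' hz hp' hB hz2 hp1' h4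
  have hAB : cr (A - z) (B - z) < 0 := by
    have : cr (A - z) (B - z) = cr (B - A) (z - A) := by simp [cr]; ring
    rw [this]; exact hz1
  have hAB' : cr (A' - z) (B' - z) < 0 := by
    have : cr (A' - z) (B' - z) = cr (B' - A') (z - A') := by simp [cr]; ring
    rw [this]; exact hz2
  -- A and A' are on the same ray from z, and so are B and B'
  have c1 : cr (A - z) (A' - z) = 0 := by
    apply le_antisymm a1
    rw [cr_swap]
    linarith
  have c2 : cr (B - z) (B' - z) = 0 := by
    apply le_antisymm _ (by rw [cr_swap]; linarith)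
    exact b4
  have hA0 : A - z ≠ 0 := by
    intro h; rw [h, cr_zero_left] at hAB; exact lt_irrefl _ hAB
  have hB0 : B - z ≠ 0 := by
    intro h; rw [h, cr_zero_right] at hAB; exact lt_irrefl _ hAB
  obtain ⟨s, hs⟩ := exists_smul_of_cr_eq_zero hA0 c1
  obtain ⟨t, ht⟩ := exists_smul_of_cr_eq_zero hB0 c2
  have hst : cr (A' - z) (B' - z) = s * t * cr (A - z) (B - z) := by
    rw [hs, ht, cr_smul_left, cr_smul_right]; ring
  have hAB'' : cr (A' - z) (B - z) = s * cr (A - z) (B - z) := by
    rw [hs, cr_smul_left]
  have hs0 : 0 ≤ s := by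
    by_contra h
    push Not at h
    have := mul_pos_of_neg_of_neg h hAB
    linarith
  have hst0 : 0 < s * t := by
    by_contra h
    push Not at h
    have := mul_nonneg_of_nonpos_of_nonpos h hAB.le
    linarith
  have hs1 : 0 < s := by
    rcases hs0.lt_or_eq with h | h
    · exact h
    · rw [← h, zero_mul] at hst0; exact absurd hst0 (lt_irrefl _)
  have ht1 : 0 < t := pos_of_mul_pos_right hst0 hs0
  -- heights
  have k1 : cr (B - A) (A' - A) = (1 - s) * cr (A - z) (B - z) := by
    have e1 : A' - A = (A' - z) - (A - z) := by abel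
    have e2 : B - A = (B - z) - (A - z) := by abel
    rw [e1, hs, e2]
    have := cr_height (A - z) (B - z) s 0
    simpa using this
  have k2 : cr (B - A) (B' - A) = (1 - t) * cr (A - z) (B - z) := by
    have e1 : B' - A = (B' - z) - (A - z) := by abel
    have e2 : B - A = (B - z) - (A - z) := by abel
    rw [e1, ht, e2]
    have := cr_height (A - z) (B - z) 0 t
    simpa using this
  have k3 : s * cr (B' - A') (A - A') = (s - 1) * cr (A' - z) (B' - z) := by
    have e1 : A - A' = (A - z) - (A' - z) := by abel
    have e2 : B' - A' = (B' - z) - (A' - z) := by abel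
    rw [hst, e1, e2, hs, ht]
    exact cr_height' _ _ _ _
  have k4 : t * cr (B' - A') (B - A') = (t - 1) * cr (A' - z) (B' - z) := by
    have e1 : B - A' = (B - z) - (A' - z) := by abel
    have e2 : B' - A' = (B' - z) - (A' - z) := by abel
    rw [hst, e1, e2, hs, ht]
    exact cr_height'' _ _ _ _
  have s1 : s = 1 := by
    apply le_antisymm
    · by_contra h
      push Not at h
      have h5 := mul_nonneg hs1.le h3
      rw [k3] at h5
      have := mul_neg_of_pos_of_neg (sub_pos.mpr h) hAB'
      linarith
    · by_contra h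
      push Not at h
      rw [k1] at h1
      have := mul_neg_of_pos_of_neg (sub_pos.mpr h) hAB
      linarith
  have t1 : t = 1 := by
    apply le_antisymm
    · by_contra h
      push Not at h
      have h5 := mul_nonneg ht1.le h4
      rw [k4] at h5
      have := mul_neg_of_pos_of_neg (sub_pos.mpr h) hAB'
      linarith
    · by_contra h
      push Not at h
      rw [k2] at h2
      have := mul_neg_of_pos_of_neg (sub_pos.mpr h) hAB
      linarith
  apply hne
  rw [s1, one_smul] at hs
  rw [t1, one_smul] at ht
  exact ⟨(sub_left_inj.mp hs).symm, (sub_left_inj.mp ht).symm⟩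

end C2305b.TL
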